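import Pool.Agent.MP_578b47_co.Proof

open Pool.Agent.MP_578b47_co

theorem Pool.Agent.Results.MP_578b47_co.LimitZero.result :
    ∀ r k : ℕ, 3 ≤ r → r ≤ k →
      Filter.Tendsto (fun n : ℕ => (sat r (joinedCliques r k) n : ℝ) / (n : ℝ) ^ (r - 1))
        Filter.atTop (nhds 0) :=
  tendsto_zero
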